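import Pool.Agent.W118.Back

/-!
# A vertex in the right number of triangles that no antimorphism fixes

A regular self-complementary graph on `9 = 4 * 2 + 1` vertices in which every vertex lies in
exactly `2 * (2 - 1) = 2` triangles, although only one vertex is fixed by some
isomorphism-permutation.
-/

set_option autoImplicit false

namespace Pool.Agent.Results.MP_b6be33_co.ManyTrianglesNotFixed

open Pool.Agent.W118.Back

/-- `P` is an isomorphism-permutation of `G`, an isomorphism from `G` onto its complement. -/
def IsoPerm {V : Type} (G : SimpleGraph V) (P : Equiv.Perm V) : Prop :=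
  ∀ u v : V, u ≠ v → (G.Adj u v ↔ ¬ G.Adj (P u) (P v))

/-- The set of vertices fixed by at least one isomorphism-permutation of `G`. -/
def FixedSet {V : Type} (G : SimpleGraph V) : Set V := {v | ∃ P, IsoPerm G P ∧ P v = v}

/-- The number of triangles of `G` that contain `v`. -/
noncomputable def trianglesAt {V : Type} (G : SimpleGraph V) (v : V) : ℕ :=
  {T : Finset V | G.IsNClique 3 T ∧ v ∈ T}.ncard

/-- `G` is regular: all vertices have the same number of neighbours. -/
def Regular {V : Type} (G : SimpleGraph V) : Prop := ∃ d : ℕ, ∀ v, (G.neighborSet v).ncard = d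

/-- The rows of the adjacency matrix. -/
def rows : List ℕ := [54, 401, 201, 356, 99, 281, 156, 326, 170]

/-- The graph. -/
def graph : SimpleGraph (Fin 9) where
  Adj i j := adj rows i j = true
  symm := ⟨by decide +kernel⟩
  loopless := ⟨by decide +kernel⟩

instance : DecidableRel graph.Adj := fun i j => inferInstanceAs (Decidable (adj rows i j = true))

/-- An isomorphism-permutation. -/
def perm : Equiv.Perm (Fin 9) where
  toFun := ![1, 2, 3, 0, 5, 6, 7, 4, 8]
  invFun := ![3, 0, 1, 2, 7, 4, 5, 6, 8]
  left_inv := by decide +kernel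
  right_inv := by decide +kernel

theorem perm_iso : IsoPerm graph perm := by
  unfold IsoPerm
  decide +kernel

theorem regular : Regular graph := by
  refine ⟨4, fun v => ?_⟩
  rw [Set.ncard_eq_toFinset_card']
  revert v
  decide +kernel

theorem triangles (v : Fin 9) : trianglesAt graph v = 2 := by
  unfold trianglesAt
  rw [Set.ncard_eq_toFinset_card', Set.toFinset_ofPred]
  revert v
  decide +kernel

theorem check : chk (List.range 9) (fun j i b a => (b != a) && (adj rows j i != adj rows b a))
    (fun l => (List.range 8).all fun i => l.getD (8 - i) 0 != i) 9 [] = true := by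
  decide +kernel

theorem not_fixed (P : Equiv.Perm (Fin 9)) (hP : IsoPerm graph P) (v : Fin 9) (hv : v ≠ 8) :
    P v ≠ v := by
  intro h0
  have h := chk_sound _ _ _ _ check (fun i => if h : i < 9 then (P ⟨i, h⟩ : ℕ) else 0)
    (fun i hi => by simp [hi]) (fun j i hji hi => by
      have hj : j < 9 := by omega
      simp only [hi, hj, dite_true, Bool.and_eq_true]
      have hne : (⟨j, hj⟩ : Fin 9) ≠ ⟨i, hi⟩ := by
        intro h
        rw [Fin.mk.injEq] at h
        omega
      have h2 := hP ⟨j, hj⟩ ⟨i, hi⟩ hne
      constructor
      · rw [bne_iff_ne]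
        intro h3
        exact hne (P.injective (Fin.ext h3))
      · rw [bne_iff_ne]
        intro h3
        change (adj rows j i = true) ↔ ¬ (adj rows (P ⟨j, hj⟩) (P ⟨i, hi⟩) = true) at h2
        rw [h3] at h2
        exact iff_not_self h2)
  rw [List.all_eq_true] at h
  have hv8 : (v : ℕ) < 8 := by
    have := v.2
    have : (v : ℕ) ≠ 8 := fun h => hv (Fin.ext h)
    omega
  have h1 := h v (List.mem_range.2 hv8)
  fin_cases v
  all_goals first | exact absurd rfl hv | simp [imgs] at h1
  all_goals
    simp only [Fin.ext_iff] at h0
    simp_all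

/-- There is a regular self-complementary graph on `4 * 2 + 1 = 9` vertices in which every vertex
lies in exactly `2 * (2 - 1)` triangles, while only one vertex is fixed by an
isomorphism-permutation. -/
theorem result : ∃ G : SimpleGraph (Fin (4 * 2 + 1)),
    Regular G ∧ Nonempty (G ≃g Gᶜ) ∧ (∀ v, trianglesAt G v = 2 * (2 - 1)) ∧
      ∃ w, FixedSet G = {w} := by
  refine ⟨graph, regular, ⟨⟨perm, ?_⟩⟩, triangles, 8, ?_⟩
  · intro a b
    rw [SimpleGraph.compl_adj]
    constructor
    · rintro ⟨h1, h2⟩
      exact (perm_iso a b fun h => h1 (by rw [h])).2 h2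
    · intro h
      exact ⟨fun h1 => h.ne (perm.injective h1), (perm_iso a b h.ne).1 h⟩
  · ext v
    constructor
    · rintro ⟨P, hP, h0⟩
      by_contra hv
      exact not_fixed P hP v hv h0
    · rintro rfl
      exact ⟨perm, perm_iso, by decide⟩

end Pool.Agent.Results.MP_b6be33_co.ManyTrianglesNotFixed
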